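import Mathlib
import Pool.Agent.H447R2.ML.P9
import Pool.Agent.H447R2.ML.Spec

set_option autoImplicit false

/-!
# The Lenstra-Pomerance-Wagstaff constant for almost every real base

For a real base `x > 1` and a prime `p` let `W x p` be the `p`-rough part (the product, with
multiplicity, of the prime factors larger than `p`) of `⌊x ^ p - 1⌋`, and let `M x n` be the number
of primes `p ≤ n` with `W x p` prime.  For an integer `b ≥ 2` and `p ≥ b` the number `W b p` is
`(b ^ p - 1) / (b - 1)`; in particular `M 2` is the counting function of the Mersenne prime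
exponents.  There is no auxiliary amplitude: the only parameter is the base.  We prove that for
almost every real `x > 1` we have `liminf M x n / log n ≤ e ^ γ / log x ≤ limsup M x n / log n`.
-/

namespace Pool.Agent.Results.MP_9b2bac_nt.AlmostEveryBase

open Filter Topology MeasureTheory

/-- The product, with multiplicity, of the prime factors of `m` that are larger than `p`. -/
def roughPart (p m : ℕ) : ℕ := (m.primeFactorsList.filter (fun r => p < r)).prod

/-- The `p`-rough part of `⌊x ^ p - 1⌋`. -/
noncomputable def W (x : ℝ) (p : ℕ) : ℕ := roughPart p ⌊x ^ p - 1⌋₊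

/-- The number of primes `p ≤ n` for which `W x p` is prime. -/
noncomputable def M (x : ℝ) (n : ℕ) : ℕ :=
  ((Finset.range (n + 1)).filter (fun p => p.Prime ∧ (W x p).Prime)).card

lemma roughPart_mul (p : ℕ) {m n : ℕ} (hm : m ≠ 0) (hn : n ≠ 0) :
    roughPart p (m * n) = roughPart p m * roughPart p n := by
  unfold roughPart
  rw [((Nat.perm_primeFactorsList_mul hm hn).filter _).prod_eq, List.filter_append,
    List.prod_append]

lemma roughPart_small {p m : ℕ} (hm : 0 < m) (hmp : m ≤ p) : roughPart p m = 1 := by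
  unfold roughPart
  have : m.primeFactorsList.filter (fun r => p < r) = [] := by
    rw [List.filter_eq_nil_iff]
    intro r hr
    have := Nat.le_of_dvd hm (Nat.dvd_of_mem_primeFactorsList hr)
    simp only [decide_eq_true_eq, not_lt]
    omega
  rw [this, List.prod_nil]

lemma geom_nat {b : ℕ} (hb : 1 ≤ b) (p : ℕ) :
    b ^ p - 1 = (b - 1) * ∑ i ∈ Finset.range p, b ^ i := by
  obtain ⟨c, rfl⟩ := Nat.exists_eq_add_of_le' hb
  have h := Commute.geom_sum₂_mul (Commute.all ((c : ℤ) + 1) 1) p
  simp only [one_pow, mul_one, add_sub_cancel_right] at h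
  have h2 : (c * ∑ i ∈ Finset.range p, (c + 1) ^ i) + 1 = (c + 1) ^ p := by
    zify
    linarith
  rw [Nat.add_sub_cancel, ← h2, Nat.add_sub_cancel]

/-- The special points: the integer bases. -/
lemma W_int {b p : ℕ} (hb : 2 ≤ b) (hp : p.Prime) (hbp : b ≤ p) :
    W b p = ∑ i ∈ Finset.range p, b ^ i := by
  have hfl : ⌊(b : ℝ) ^ p - 1⌋₊ = b ^ p - 1 := by
    have h1 : 1 ≤ b ^ p := Nat.one_le_pow _ _ (by omega)
    have : (b : ℝ) ^ p - 1 = ((b ^ p - 1 : ℕ) : ℝ) := by
      push_cast [Nat.cast_sub h1]
      ring
    rw [this, Nat.floor_natCast]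
  have hpos : 0 < ∑ i ∈ Finset.range p, b ^ i := by
    have : 0 ∈ Finset.range p := Finset.mem_range.2 hp.pos
    refine Finset.sum_pos' (fun i _ => Nat.zero_le _) ⟨0, this, by simp⟩
  have hpd : ¬ (p : ℤ) ∣ (b : ℤ) - 1 := by
    intro h
    have h2 := Int.le_of_dvd (by omega) h
    omega
  unfold W
  rw [hfl, geom_nat (by omega), roughPart_mul p (by omega) hpos.ne', roughPart_small (by omega)
    (by omega), one_mul]
  refine Pool.Agent.H447R2.ML.roughPart_eq_self hpos.ne' fun q hq hd => ?_
  refine Pool.Agent.H447R2.ML.lt_of_dvd_quot (a := b) (b := 1) isCoprime_one_right hp hpd hq ?_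
  simp only [one_pow, mul_one]
  exact_mod_cast hd

/-- The values of `W` at the integer bases; the counting function at `x = 2` is that of the
Mersenne prime exponents; the almost everywhere statement. -/
theorem result :
    (∀ b p : ℕ, 2 ≤ b → p.Prime → b ≤ p → W b p = ∑ i ∈ Finset.range p, b ^ i) ∧
    (∀ n : ℕ, M 2 n =
      ((Finset.range (n + 1)).filter (fun p => p.Prime ∧ (2 ^ p - 1).Prime)).card) ∧
    (∀ᵐ x : ℝ, 1 < x →
      (∀ c : ℝ, c < Real.exp Real.eulerMascheroniConstant / Real.log x →
        ∃ᶠ n : ℕ in atTop, c * Real.log n < M x n) ∧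
      (∀ c : ℝ, Real.exp Real.eulerMascheroniConstant / Real.log x < c →
        ∃ᶠ n : ℕ in atTop, (M x n : ℝ) < c * Real.log n)) := by
  refine ⟨fun b p hb hp hbp => W_int hb hp hbp, fun n => ?_, ?_⟩
  · unfold M
    congr 1
    refine Finset.filter_congr fun p _ => and_congr_right fun hp => ?_
    have h := W_int le_rfl hp hp.two_le
    have h2 := geom_nat (b := 2) (by norm_num) p
    rw [show (2 : ℕ) - 1 = 1 from rfl, one_mul] at h2
    rw [h2]
    have h3 : W 2 p = W ((2 : ℕ) : ℝ) p := by norm_num
    rw [h3, h]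
  · have h := Pool.Agent.H447R2.ML.one_param_val (val := fun p x => x ^ p - 1)
      (y' := fun p t => p * Real.exp (p * t) / (Real.exp (p * t) + (-1)) + 0)
      (fun p => (measurable_id.pow_const p).sub_const 1)
      (fun p hp x hx => by
        have : 1 < x ^ p := one_lt_pow₀ hx (by omega)
        linarith)
      (Pool.Agent.H447R2.ML.fam_of (ε := -1) (by norm_num) (H := fun _ => 0) (H' := fun _ => 0)
        (fun t _ => hasDerivAt_const t 0) continuousOn_const (fun p _ t _ => by
          rw [add_zero, Real.exp_nat_mul, ← sub_eq_add_neg]))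
    filter_upwards [h] with x hx h1
    exact hx h1

end Pool.Agent.Results.MP_9b2bac_nt.AlmostEveryBase
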