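import Mathlib
import Pool.Agent.H447R2.ML.R5
import Pool.Agent.H447R2.ML.Spec
import Pool.Agent.H555R4.LW.All

set_option autoImplicit false

/-!
# The order of magnitude `log n` for almost every binary expansion

For real `β > 0` and a prime `p` let `W β p` be the `p`-rough part (the product, with multiplicity,
of the prime factors larger than `p`) of the largest integer below `β * 2 ^ p`, the integer with
the first `p` binary digits of `β` (for `0 < β ≤ 1`, non-terminating expansion).  For
`β = 1 = 0.111...` this is the Mersenne number `2 ^ p - 1` itself.  Let `M β n` be the number of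
primes `p ≤ n` with `W β p` prime.  The base `2` is fixed.  We prove that there are absolute
constants `0 < c ≤ C` such that for Lebesgue almost every `β > 0` the inequalities
`c log n ≤ M β n ≤ C log n` hold for all large `n`: growth of exactly the order `log n`.
-/

namespace Pool.Agent.Results.MP_9b2bac_nt.AlmostEveryOrder

open Filter Topology MeasureTheory

/-- The product, with multiplicity, of the prime factors of `m` that are larger than `p`. -/
def roughPart (p m : ℕ) : ℕ := (m.primeFactorsList.filter (fun r => p < r)).prod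

/-- The `p`-rough part of the largest integer below `β * 2 ^ p`. -/
noncomputable def W (β : ℝ) (p : ℕ) : ℕ := roughPart p (⌈β * 2 ^ p⌉₊ - 1)

/-- The number of primes `p ≤ n` for which `W β p` is prime. -/
noncomputable def M (β : ℝ) (n : ℕ) : ℕ :=
  ((Finset.range (n + 1)).filter (fun p => p.Prime ∧ (W β p).Prime)).card

/-- At `β = 1` the number `W` is the Mersenne number. -/
lemma W_one {p : ℕ} (hp : p.Prime) : W 1 p = 2 ^ p - 1 := by
  have hpd : ¬ (p : ℤ) ∣ (2 : ℤ) - 1 := by
    intro h
    have h1 : (p : ℤ) ∣ 1 := by simpa using h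
    have h2 : p ∣ 1 := by exact_mod_cast h1
    exact hp.one_lt.ne' (Nat.dvd_one.1 h2)
  have h1p : 1 ≤ 2 ^ p := Nat.one_le_two_pow
  have h := Pool.Agent.H447R2.ML.rough_quot (a := 2) (b := 1) (by norm_num) (by norm_num)
    (by norm_num) hp hpd (x := ((2 ^ p - 1 : ℕ) : ℝ)) (by push_cast [Nat.cast_sub h1p]; ring)
  rw [Nat.floor_natCast] at h
  have hgeom : (∑ i ∈ Finset.range p, (2 : ℤ) ^ i * 1 ^ (p - 1 - i)) * (2 - 1) =
      (2 : ℤ) ^ p - 1 ^ p := (Commute.all (2 : ℤ) 1).geom_sum₂_mul p
  have h4 : W 1 p = Pool.Agent.H305R2.roughPart p (2 ^ p - 1) := by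
    have h6 : ⌈(1 : ℝ) * 2 ^ p⌉₊ = 2 ^ p := by
      rw [one_mul]
      exact_mod_cast Nat.ceil_natCast (R := ℝ) (2 ^ p)
    unfold W
    rw [h6]
    rfl
  rw [← h4, ← mul_one (∑ i ∈ Finset.range p, (2 : ℤ) ^ i * 1 ^ (p - 1 - i)),
    show (1 : ℤ) = 2 - 1 by norm_num] at h
  have h5 : W 1 p + 1 = 2 ^ p := by
    have : ((W 1 p + 1 : ℕ) : ℤ) = ((2 ^ p : ℕ) : ℤ) := by
      push_cast
      norm_num at h hgeom ⊢
      linarith
    exact_mod_cast this
  omega

/-- The counting function at `β = 1` is that of the Mersenne prime exponents, and for almost every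
`β > 0` the counting function has exact order of magnitude `log n`. -/
theorem result :
    (∀ n : ℕ, M 1 n = ((Finset.range (n + 1)).filter (fun p => p.Prime ∧ (2 ^ p - 1).Prime)).card) ∧
    (∃ c C : ℝ, 0 < c ∧ ∀ᵐ β : ℝ, 0 < β → ∀ᶠ n : ℕ in atTop,
      c * Real.log n ≤ M β n ∧ (M β n : ℝ) ≤ C * Real.log n) := by
  refine ⟨fun n => ?_, Pool.Agent.H555R4.LW.order_ae⟩
  unfold M
  congr 1
  refine Finset.filter_congr fun p _ => and_congr_right fun hp => ?_
  rw [W_one hp]

end Pool.Agent.Results.MP_9b2bac_nt.AlmostEveryOrder
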