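import Mathlib
import Pool.Agent.H447R2.ML.Spec

set_option autoImplicit false

/-!
# The Lenstra-Pomerance-Wagstaff law for almost every pair (base, amplitude)

For real `α > 1`, `β > 0` and a prime `p` let `W α β p` be the `p`-rough part (the product, with
multiplicity, of the prime factors larger than `p`) of `⌊β α ^ p - 1⌋`, and let `M α β n` be the
number of primes `p ≤ n` with `W α β p` prime.  At `(α, β) = (2, 1)` the number `W 2 1 p` is the
Mersenne number `2 ^ p - 1` and `M 2 1` is the counting function of the Mersenne prime exponents.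
We prove that for Lebesgue almost every pair `(α, β)` with `α > 1` and `β > 0` the limit
`M α β n / log n → e ^ γ / log α` exists, the law the question asks for at `(2, 1)`.
-/

namespace Pool.Agent.Results.MP_9b2bac_nt.AlmostEveryPair

open Filter Topology MeasureTheory

/-- The product, with multiplicity, of the prime factors of `m` that are larger than `p`. -/
def roughPart (p m : ℕ) : ℕ := (m.primeFactorsList.filter (fun r => p < r)).prod

/-- The `p`-rough part of `⌊β α ^ p - 1⌋`. -/
noncomputable def W (α β : ℝ) (p : ℕ) : ℕ := roughPart p ⌊β * α ^ p - 1⌋₊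

/-- The number of primes `p ≤ n` for which `W α β p` is prime. -/
noncomputable def M (α β : ℝ) (n : ℕ) : ℕ :=
  ((Finset.range (n + 1)).filter (fun p => p.Prime ∧ (W α β p).Prime)).card

/-- At `(2, 1)` the number `W` is the Mersenne number. -/
lemma W_mersenne {p : ℕ} (hp : p.Prime) : W 2 1 p = 2 ^ p - 1 := by
  have hpd : ¬ (p : ℤ) ∣ (2 : ℤ) - 1 := by
    intro h
    have h1 : (p : ℤ) ∣ 1 := by simpa using h
    have h2 : p ∣ 1 := by exact_mod_cast h1
    exact hp.one_lt.ne' (Nat.dvd_one.1 h2)
  have h := Pool.Agent.H447R2.ML.rough_quot (a := 2) (b := 1) (by norm_num) (by norm_num)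
    (by norm_num) hp hpd (x := (1 : ℝ) * 2 ^ p - 1) (by norm_num)
  have hgeom : (∑ i ∈ Finset.range p, (2 : ℤ) ^ i * 1 ^ (p - 1 - i)) * (2 - 1) =
      (2 : ℤ) ^ p - 1 ^ p := (Commute.all (2 : ℤ) 1).geom_sum₂_mul p
  have h4 : W 2 1 p = Pool.Agent.H305R2.roughPart p ⌊(1 : ℝ) * 2 ^ p - 1⌋₊ := rfl
  rw [← h4] at h
  have h5 : W 2 1 p + 1 = 2 ^ p := by
    have : ((W 2 1 p + 1 : ℕ) : ℤ) = ((2 ^ p : ℕ) : ℤ) := by
      push_cast
      norm_num at h hgeom ⊢
      linarith
    exact_mod_cast this
  omega

/-- The counting function at `(2, 1)` is that of the Mersenne prime exponents, and for almost every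
pair `(α, β)` the limit of `M α β n / log n` exists and is `e ^ γ / log α`. -/
theorem result :
    (∀ n : ℕ, M 2 1 n =
      ((Finset.range (n + 1)).filter (fun p => p.Prime ∧ (2 ^ p - 1).Prime)).card) ∧
    (∀ᵐ z : ℝ × ℝ, 1 < z.1 → 0 < z.2 →
      Tendsto (fun n : ℕ => (M z.1 z.2 n : ℝ) / Real.log n) atTop
        (𝓝 (Real.exp Real.eulerMascheroniConstant / Real.log z.1))) := by
  refine ⟨fun n => ?_, ?_⟩
  · unfold M
    congr 1
    refine Finset.filter_congr fun p _ => and_congr_right fun hp => ?_
    rw [W_mersenne hp]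
  · have h := Pool.Agent.H447R2.ML.law (g := fun _ => -1) (κ := 1) (C := 1) le_rfl
      (by intro p; simp)
    filter_upwards [h] with z hz h1 h2
    refine (hz h1 h2).congr fun n => ?_
    unfold Pool.Agent.H447R2.ML.cnt M W
    simp only [← sub_eq_add_neg]
    rfl

end Pool.Agent.Results.MP_9b2bac_nt.AlmostEveryPair
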