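import Mathlib
import Pool.Agent.H447R2.ML.Spec
import Pool.Agent.H555R4.DY.All

set_option autoImplicit false

/-!
# The Lenstra-Pomerance-Wagstaff law for almost every odd 2-adic integer

A sequence `ε` of binary digits, least significant digit first, is a 2-adic integer; it is odd if
`ε 0 = true`.  For a prime `p` let `W ε p` be the `p`-rough part (the product, with multiplicity,
of the prime factors larger than `p`) of the integer `num ε p` formed by the first `p` digits, that
is of the residue of the 2-adic integer modulo `2 ^ p`.  If all digits are one (the 2-adic integer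
`-1`) then `W ε p` is the Mersenne number `2 ^ p - 1`.  Let `M ε n` be the number of primes `p ≤ n`
with `W ε p` prime.  We prove that for almost every odd 2-adic integer the limit of `M ε n / log n`
exists and equals `e ^ γ / log 2`, the law the question asks for at the 2-adic integer `-1`.
-/

namespace Pool.Agent.Results.MP_9b2bac_nt.DyadicLaw

open Filter Topology MeasureTheory

/-- The product, with multiplicity, of the prime factors of `m` that are larger than `p`. -/
def roughPart (p m : ℕ) : ℕ := (m.primeFactorsList.filter (fun r => p < r)).prod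

/-- The integer with binary digits `ε 0, …, ε (p - 1)`, least significant digit first. -/
def num (ε : ℕ → Bool) (p : ℕ) : ℕ := ∑ i ∈ Finset.range p, if ε i then 2 ^ i else 0

/-- The `p`-rough part of the integer formed by the first `p` digits. -/
def W (ε : ℕ → Bool) (p : ℕ) : ℕ := roughPart p (num ε p)

/-- The number of primes `p ≤ n` for which `W ε p` is prime. -/
def M (ε : ℕ → Bool) (n : ℕ) : ℕ :=
  ((Finset.range (n + 1)).filter (fun p => p.Prime ∧ (W ε p).Prime)).card

/-- Fair coin tossing: the product measure of the uniform distribution on the two digits. -/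
noncomputable def coin : Measure (ℕ → Bool) :=
  Measure.infinitePi (fun _ : ℕ => (PMF.uniformOfFintype Bool).toMeasure)

/-- All digits one: the Mersenne number. -/
lemma num_true (p : ℕ) : num (fun _ => true) p = 2 ^ p - 1 := by
  unfold num
  simp only [if_true]
  have h := Nat.geomSum_eq (m := 2) le_rfl p
  simpa using h

/-- A Mersenne number with prime exponent `p` is its own `p`-rough part. -/
lemma W_true {p : ℕ} (hp : p.Prime) : W (fun _ => true) p = 2 ^ p - 1 := by
  have hpd : ¬ (p : ℤ) ∣ (2 : ℤ) - 1 := by
    intro h
    have h1 : (p : ℤ) ∣ 1 := by simpa using h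
    have h2 : p ∣ 1 := by exact_mod_cast h1
    exact hp.one_lt.ne' (Nat.dvd_one.1 h2)
  have h1p : 1 ≤ 2 ^ p := Nat.one_le_two_pow
  have h := Pool.Agent.H447R2.ML.rough_quot (a := 2) (b := 1) (by norm_num) (by norm_num)
    (by norm_num) hp hpd (x := ((2 ^ p - 1 : ℕ) : ℝ)) (by push_cast [Nat.cast_sub h1p]; ring)
  rw [Nat.floor_natCast] at h
  have hgeom : (∑ i ∈ Finset.range p, (2 : ℤ) ^ i * 1 ^ (p - 1 - i)) * (2 - 1) =
      (2 : ℤ) ^ p - 1 ^ p := (Commute.all (2 : ℤ) 1).geom_sum₂_mul p
  have h4 : W (fun _ => true) p = Pool.Agent.H305R2.roughPart p (2 ^ p - 1) := by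
    unfold W
    rw [num_true]
    rfl
  rw [← h4, ← mul_one (∑ i ∈ Finset.range p, (2 : ℤ) ^ i * 1 ^ (p - 1 - i)),
    show (1 : ℤ) = 2 - 1 by norm_num] at h
  have h5 : W (fun _ => true) p + 1 = 2 ^ p := by
    have : ((W (fun _ => true) p + 1 : ℕ) : ℤ) = ((2 ^ p : ℕ) : ℤ) := by
      push_cast
      norm_num at h hgeom ⊢
      linarith
    exact_mod_cast this
  omega

/-- The counting function at the 2-adic integer `-1` is that of the Mersenne prime exponents, and
for almost every odd 2-adic integer `M ε n / log n` tends to `e ^ γ / log 2`. -/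
theorem result :
    (∀ n : ℕ, M (fun _ => true) n =
      ((Finset.range (n + 1)).filter (fun p => p.Prime ∧ (2 ^ p - 1).Prime)).card) ∧
    (∀ᵐ ε ∂coin, ε 0 = true → Tendsto (fun n : ℕ => (M ε n : ℝ) / Real.log n) atTop
      (𝓝 (Real.exp Real.eulerMascheroniConstant / Real.log 2))) := by
  refine ⟨fun n => ?_, Pool.Agent.H555R4.DY.law⟩
  unfold M
  congr 1
  refine Finset.filter_congr fun p _ => and_congr_right fun hp => ?_
  rw [W_true hp]

end Pool.Agent.Results.MP_9b2bac_nt.DyadicLaw
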